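import Pool.Agent.H30.DowA

set_option autoImplicit false

namespace Pool.Agent.Results.MP_058773_gt.Diamond

open Pool.Agent.H30.Dia Pool.Agent.H30.Dow

/-- Under the diamond principle there is a normal, first countable, functionally countable
Hausdorff space that is not exponentially separable. -/
theorem result (h : Diamond) : ∃ (X : Type) (_ : TopologicalSpace X),
    T2Space X ∧ NormalSpace X ∧ FirstCountableTopology X ∧
    (∀ g : X → ℝ, Continuous g → (Set.range g).Countable) ∧
    ∃ F : Set (Set X), F.Countable ∧ (∀ s ∈ F, IsClosed s) ∧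
      ¬ ∃ A : Set X, A.Countable ∧ ∀ G ⊆ F, (⋂₀ G).Nonempty → (A ∩ ⋂₀ G).Nonempty := by
  obtain ⟨f, hf⟩ := exists_ost h
  exact ⟨Sp f, inferInstance, hf.t2, hf.normal, hf.fst, fun _ hg => hf.fc hg, hf.not_es⟩

end Pool.Agent.Results.MP_058773_gt.Diamond
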